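import Pool.Agent.V8H86.LT.Harm
import Pool.Agent.V8H74.LT.P4R

/-!
# Project LT (helper86), job P4A: the Davis complex is det-acyclic
-/

set_option autoImplicit false

set_option linter.unusedSectionVars false

open scoped InnerProductSpace

noncomputable section

namespace Pool.Agent.V8H86.LT

open Pool.Agent.Helper993.FK Pool.Agent.Helper993.Delta Pool.Agent.TH630.Tor Pool.Agent.N496.LT
open Pool.Agent.W907.SG Pool.Agent.W461.SGN Pool.Agent.N496.CV Pool.Agent.N496.CV.CB

variable {V : Type} [Fintype V] [LinearOrder V] {G : SimpleGraph V}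

/-- the functional -/
def Lg (v : (davis G).ι → (th G).ker → ℂ) (j : (davis G).ι) (g : (th G).ker) :
    MonoidAlgebra ℤ (th G).ker →+ ℂ where
  toFun a := a.coeff.sum fun γ n => n • v j (g * γ)
  map_zero' := by simp
  map_add' a b := by
    rw [MonoidAlgebra.coeff_add]
    exact Finsupp.sum_add_index' (fun _ => zero_smul _ _) (fun _ _ _ => add_smul _ _ _)

theorem Lg_single (v : (davis G).ι → (th G).ker → ℂ) (j : (davis G).ι) (g γ : (th G).ker) :
    Lg v j g (MonoidAlgebra.single γ 1) = v j (g * γ) := by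
  show (MonoidAlgebra.single γ (1 : ℤ)).coeff.sum (fun γ n => n • v j (g * γ)) = _
  rw [MonoidAlgebra.coeff_single, Finsupp.sum_single_index (by simp), one_smul]

theorem Lg_one (v : (davis G).ι → (th G).ker → ℂ) (j : (davis G).ι) (g : (th G).ker) :
    Lg v j g 1 = v j g := by
  rw [MonoidAlgebra.one_def, Lg_single, mul_one]

theorem mDs_term (v : (davis G).ι → (th G).ker → ℂ) (i j : (davis G).ι) (g : (th G).ker) :
    (((davis G).D i j).coeff.sum fun γ a => a • v j (g * γ)) =
      ∑ t ∈ i.1.1, if j.1.1 = i.1.1.erase t then sg t (i.1.1.erase t) •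
        ((if j.1.2 = i.1.2 then v j g else 0) - (if j.1.2 = insert t i.1.2 then
          v j (g * gm G (rep G i.1.2 * (cox G).simple t)) else 0)) else 0 := by
  classical
  have h0 : (((davis G).D i j).coeff.sum fun γ a => a • v j (g * γ)) = Lg v j g ((davis G).D i j) := rfl
  rw [h0]
  have h1 : (davis G).D i j = ∑ t ∈ i.1.1, if j.1.1 = i.1.1.erase t then
    ((sg t (i.1.1.erase t) : ℤ) : MonoidAlgebra ℤ (th G).ker) *
      ((if j.1.2 = i.1.2 then 1 else 0) - (if j.1.2 = insert t i.1.2 then
        MonoidAlgebra.single (gm G (rep G i.1.2 * (cox G).simple t)) 1 else 0)) else 0 := by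
    unfold davis
    simp only [Matrix.of_apply]
    all_goals (refine Finset.sum_congr rfl fun t _ => ?_; split_ifs <;> rfl)
  rw [h1, map_sum]
  refine Finset.sum_congr rfl fun t _ => ?_
  split_ifs with h2 h3 h4 h4
  · rw [← zsmul_eq_mul, map_zsmul, map_sub, Lg_one, Lg_single]
  · rw [← zsmul_eq_mul, map_zsmul, map_sub, Lg_one, map_zero]
  · rw [← zsmul_eq_mul, map_zsmul, map_sub, Lg_single, map_zero]
  · rw [← zsmul_eq_mul, map_zsmul, map_sub, map_zero]
  · rw [map_zero]

/-- the coboundary, in closed form -/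
theorem mDs_eq (v : (davis G).ι → (th G).ker → ℂ) (i : (davis G).ι) (g : (th G).ker) :
    mDs (davis G) v i g = ∑ t ∈ i.1.1, sg t (i.1.1.erase t) • (vv v (i.1.1.erase t) i.1.2 g -
      vv v (i.1.1.erase t) (insert t i.1.2) (g * gm G (rep G i.1.2 * (cox G).simple t))) := by
  classical
  obtain ⟨T, hT⟩ : ∃ T, T = i.1.1 := ⟨_, rfl⟩
  obtain ⟨A, hA⟩ : ∃ A, A = i.1.2 := ⟨_, rfl⟩
  obtain ⟨F, hF⟩ : ∃ F : Finset V × Finset V → ℂ, F = fun p => ∑ t ∈ T,
      if p.1 = T.erase t then sg t (T.erase t) • ((if p.2 = A then vv v p.1 p.2 g else 0) -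
        (if p.2 = insert t A then vv v p.1 p.2 (g * gm G (rep G A * (cox G).simple t)) else 0)) else 0 := ⟨_, rfl⟩
  have h1 : mDs (davis G) v i g = ∑ j : (davis G).ι, F j.1 := by
    unfold mDs
    refine Finset.sum_congr rfl fun j _ => ?_
    rw [mDs_term, ← hT, ← hA, hF]
    have e3 : ∀ g', vv v j.1.1 j.1.2 g' = v j g' := fun g' => by
      unfold vv
      rw [dif_pos j.2]
      rfl
    refine Finset.sum_congr rfl fun t _ => ?_
    rw [e3, e3]
  refine h1.trans ((sum_ix F ?_).trans ?_)
  · intro p hp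
    rw [hF]
    have e3 : ∀ g', vv v p.1 p.2 g' = 0 := fun g' => by
      unfold vv
      rw [dif_neg hp]
    refine Finset.sum_eq_zero fun t _ => ?_
    simp only [e3, ite_self, sub_zero, smul_zero]
  rw [hF]
  rw [← hT, ← hA, Finset.sum_comm]
  refine Finset.sum_congr rfl fun t _ => ?_
  rw [Fintype.sum_prod_type, Finset.sum_eq_single (T.erase t)]
  · simp only [if_true]
    rw [← Finset.smul_sum, Finset.sum_sub_distrib, Finset.sum_ite_eq', Finset.sum_ite_eq',
      if_pos (Finset.mem_univ _), if_pos (Finset.mem_univ _)]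
  · intro S _ hS
    refine Finset.sum_eq_zero fun B _ => ?_
    rw [if_neg hS]
  · intro h
    exact absurd (Finset.mem_univ _) h

/-- the coboundary of a chain of functions -/
def cob (c : Finset V → W G → ℂ) (T : Finset V) (w : W G) : ℂ :=
  ∑ t ∈ T, sg t (T.erase t) • (c (T.erase t) w - c (T.erase t) (w * (cox G).simple t))

theorem cob_anti (c : Finset V → W G → ℂ) (hc : ∀ T, ∀ t ∈ T, ∀ w, c T (w * (cox G).simple t) = - c T w)
    (T : Finset V) (hT : G.IsClique (T : Set V)) (u : V) (hu : u ∈ T) (w : W G) :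
    cob c T (w * (cox G).simple u) = - cob c T w := by
  unfold cob
  rw [← Finset.sum_neg_distrib]
  refine Finset.sum_congr rfl fun t ht => ?_
  rw [← smul_neg]
  congr 1
  by_cases htu : t = u
  · subst htu
    rw [mul_mul_simple]
    ring
  · have h1 : u ∈ T.erase t := Finset.mem_erase.2 ⟨fun h => htu h.symm, hu⟩
    have h2 : w * (cox G).simple u * (cox G).simple t = w * (cox G).simple t * (cox G).simple u := by
      rw [mul_assoc, mul_assoc, simple_comm G u t (hT hu ht (fun h => htu h.symm))]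
    rw [h2, hc _ u h1, hc _ u h1]
    ring

theorem psi_vv_of {v : (davis G).ι → (th G).ker → ℂ} (T A : Finset V) (hd : Disjoint T A) (g : (th G).ker) :
    Psi v T ((g : W G) * rep G A) = vv v T A g := by
  by_cases hT : G.IsClique (T : Set V)
  · have h1 := psi_rep v ⟨(T, A), hT, hd⟩ g
    refine h1.trans ?_
    unfold vv
    rw [dif_pos ⟨hT, hd⟩]
  · unfold Psi vv
    rw [dif_neg hT, dif_neg (fun h => hT h.1)]

/-- the coboundary at a corner -/
theorem cob_corner (v : (davis G).ι → (th G).ker → ℂ) (T A : Finset V) (hT : G.IsClique (T : Set V))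
    (hd : Disjoint T A) (g : (th G).ker) :
    cob (Psi v) T ((g : W G) * rep G A) = mDs (davis G) v ⟨(T, A), hT, hd⟩ g := by
  rw [mDs_eq]
  unfold cob
  refine Finset.sum_congr rfl fun t ht => ?_
  show _ = sg t (T.erase t) • (vv v (T.erase t) A g -
      vv v (T.erase t) (insert t A) (g * gm G (rep G A * (cox G).simple t)))
  have htA : t ∉ A := fun h => Finset.disjoint_left.1 hd ht h
  have h1 : Disjoint (T.erase t) A := Finset.disjoint_of_subset_left (Finset.erase_subset t T) hd
  have h2 : Disjoint (T.erase t) (insert t A) := by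
    rw [Finset.disjoint_insert_right]
    exact ⟨Finset.notMem_erase t T, h1⟩
  have h3 : (g : W G) * rep G A * (cox G).simple t =
      ((g * gm G (rep G A * (cox G).simple t) : (th G).ker) : W G) * rep G (insert t A) := by
    rw [Subgroup.coe_mul, gm_val G A t htA]
    group
  rw [psi_vv_of _ _ h1, h3, psi_vv_of _ _ h2]

theorem cob_zero (v : (davis G).ι → (th G).ker → ℂ) (h : mDs (davis G) v = 0) (T : Finset V)
    (hT : G.IsClique (T : Set V)) (w : W G) : cob (Psi v) T w = 0 := by
  have h1 : cob (Psi v) T w = (-1) ^ (par G w ∩ T).card *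
      cob (Psi v) T ((gg T w : W G) * rep G (par G w \ T)) := by
    have h2 : cob (Psi v) T w = cob (Psi v) T ((gg T w : W G) * rep G (par G w \ T) * rep G (par G w ∩ T)) :=
      congrArg (cob (Psi v) T) (decomp T w)
    rw [h2, anti_rep (fun t ht w => cob_anti (Psi v) (fun T t ht w => psi_anti v T ht w) T hT t ht w)
      Finset.inter_subset_right]
  rw [h1, cob_corner v T _ hT Finset.disjoint_sdiff, h]
  exact mul_zero _

/-- square summability -/
theorem psi_summable (v : (davis G).ι → (th G).ker → ℂ) (hv : ∀ i, Summable fun g => ‖v i g‖ ^ 2) :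
    Summable fun x : W G × Finset V => ‖Psi v x.2 x.1‖ ^ 2 := by
  let J : W G × Finset V → (Finset V × Finset V × Finset V) × (th G).ker := fun x =>
    ((x.2, par G x.1 \ x.2, par G x.1 ∩ x.2), gg x.2 x.1)
  have hJ : Function.Injective J := by
    rintro ⟨w, T⟩ ⟨w', T'⟩ h
    simp only [J, Prod.mk.injEq] at h
    obtain ⟨⟨h1, h2, h3⟩, h4⟩ := h
    subst h1
    have h5 := decomp T w
    rw [h2, h3, h4] at h5
    rw [Prod.mk.injEq]
    exact ⟨h5.trans (decomp T w').symm, rfl⟩
  have hs : Summable fun p : (Finset V × Finset V × Finset V) × (th G).ker =>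
      ‖vv v p.1.1 p.1.2.1 p.2‖ ^ 2 := by
    rw [summable_prod_of_nonneg (fun p => by positivity)]
    refine ⟨fun x => ?_, (hasSum_fintype _).summable⟩
    by_cases h : G.IsClique (x.1 : Set V) ∧ Disjoint x.1 x.2.1
    · refine (hv ⟨(x.1, x.2.1), h⟩).congr fun g => ?_
      show _ = ‖vv v x.1 x.2.1 g‖ ^ 2
      unfold vv
      rw [dif_pos h]
    · have : ∀ g, vv v x.1 x.2.1 g = 0 := fun g => by
        unfold vv
        rw [dif_neg h]
      simp only [this]
      simp
  refine (hs.comp_injective hJ).congr fun x => ?_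
  show ‖vv v x.2 (par G x.1 \ x.2) (gg x.2 x.1)‖ ^ 2 = ‖Psi v x.2 x.1‖ ^ 2
  rw [psi_vv, norm_mul, norm_pow, norm_neg, norm_one, one_pow, one_mul]

theorem zsmul_re (m : ℤ) (z : ℂ) : (m • z).re = (m : ℝ) * z.re := by
  rw [zsmul_eq_mul]
  simp

theorem zsmul_im (m : ℤ) (z : ℂ) : (m • z).im = (m : ℝ) * z.im := by
  rw [zsmul_eq_mul]
  simp

theorem mD_eq_mulD (v : (davis G).ι → (th G).ker → ℂ) : mD (davis G) v = mulD v := rfl

/-- the real and the imaginary part of an element of the kernel are harmonic chains -/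
theorem psi_harm (n : ℕ) (v : (davis G).ι → (th G).ker → ℂ) (hdeg : ∀ i, (davis G).deg i ≠ n → v i = 0)
    (hs : ∀ i, Summable fun g => ‖v i g‖ ^ 2) (h1 : mDs (davis G) v = 0) (h2 : mD (davis G) v = 0)
    (f : ℂ → ℝ) (hf : f = Complex.re ∨ f = Complex.im) :
    IsHarm G n fun w T => f (Psi v T w) := by
  have f0 : f 0 = 0 := by rcases hf with rfl | rfl <;> simp
  have fneg : ∀ z, f (-z) = - f z := by rcases hf with rfl | rfl <;> simp
  have fsub : ∀ z w, f (z - w) = f z - f w := by rcases hf with rfl | rfl <;> simp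
  have fz : ∀ (m : ℤ) z, f (m • z) = (m : ℝ) * f z := by
    rcases hf with rfl | rfl
    · exact zsmul_re
    · exact zsmul_im
  have fsum : ∀ (S : Finset V) (F : V → ℂ), f (∑ t ∈ S, F t) = ∑ t ∈ S, f (F t) := by
    rcases hf with rfl | rfl
    · intro S F; exact Complex.re_sum _ _
    · intro S F; exact Complex.im_sum _ _
  have fle : ∀ z, (f z) ^ 2 ≤ ‖z‖ ^ 2 := by
    intro z
    rw [← sq_abs]
    refine pow_le_pow_left₀ (abs_nonneg _) ?_ 2
    rcases hf with rfl | rfl
    · exact Complex.abs_re_le_norm z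
    · exact Complex.abs_im_le_norm z
  refine ⟨fun w T hT => ?_, fun w T t ht => ?_, ?_, fun w T => ?_, fun w T hT => ?_⟩
  · have : Psi v T w = 0 := by
      unfold Psi
      by_cases hc : G.IsClique (T : Set V)
      · rw [dif_pos hc]
        have h3 : (davis G).deg (ix T hc w) ≠ n := fun h => hT ⟨hc, h⟩
        rw [hdeg _ h3]
        simp
      · rw [dif_neg hc]
    show f (Psi v T w) = 0
    rw [this, f0]
  · show f (Psi v T (w * (cox G).simple t)) = - f (Psi v T w)
    rw [psi_anti v T ht w, fneg]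
  · refine Summable.of_nonneg_of_le (fun x => sq_nonneg _) (fun x => fle _) (psi_summable v hs)
  · have h3 : bdf G (Psi v) T w = 0 := by
      rw [← psi_mulD, ← mD_eq_mulD, h2]
      unfold Psi
      split_ifs
      · simp
      · rfl
    unfold bdf at h3
    have h4 := congrArg f h3
    rw [fsum, f0] at h4
    rw [← h4]
    exact Finset.sum_congr rfl fun t _ => (fz _ _).symm
  · have h3 := cob_zero v h1 T hT w
    unfold cob at h3
    have h4 := congrArg f h3
    rw [fsum, f0] at h4
    rw [← h4]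
    exact Finset.sum_congr rfl fun t _ => by rw [fz, fsub]

/-- the Laplacians of the Davis complex are injective -/
theorem lap_inj (hL : ∀ i, L2Van G i) (n : ℕ) (v : L2Pow (th G).ker ((davis G).toFree.rank n))
    (h : (davis G).toFree.laplacian n v = 0) : v = 0 := by
  obtain ⟨h1, h2⟩ := ker_lap (davis G) n v h
  apply ex_inj (davis G) n v
  have hdeg : ∀ i, (davis G).deg i ≠ n → ex (davis G) n v i = 0 := by
    intro i hi
    funext g
    unfold ex
    rw [dif_neg hi]
    rfl
  have hs := ex_summable (davis G) n v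
  have hre := hL n _ (psi_harm n _ hdeg hs h1 h2 Complex.re (Or.inl rfl))
  have him := hL n _ (psi_harm n _ hdeg hs h1 h2 Complex.im (Or.inr rfl))
  have h3 : Psi (ex (davis G) n v) = Psi (0 : (davis G).ι → (th G).ker → ℂ) := by
    funext T w
    have h4 : Psi (0 : (davis G).ι → (th G).ker → ℂ) T w = 0 := by
      unfold Psi
      split_ifs
      · simp
      · rfl
    rw [h4]
    apply Complex.ext
    · exact congrFun (congrFun hre w) T
    · exact congrFun (congrFun him w) T
  exact psi_inj h3

/-- job P4A, from the residual finiteness (job P4R) -/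
theorem p4a_of (h4 : P4R) : P4A := by
  intro V _ _ G hL
  exact acyc_of_inj' (h4 V G) _ (lap_inj hL)

/-- **job P4A** -/
theorem p4a : P4A := p4a_of Pool.Agent.V8H74.LT.p4r

end Pool.Agent.V8H86.LT
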