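import Pool.Agent.N496.LT.Stm2
import Pool.Agent.N496.LT.E1
import Pool.Agent.N496.LT.E2
import Pool.Agent.W460.SG.ORD

/-!
# Project LT (helper86), job C2INV: invariance of homology spheres and realizations under isomorphisms,
and the inverse of an edge subdivision for realizations
-/

set_option autoImplicit false

noncomputable section

namespace Pool.Agent.V8H86.LT

open Module Pool.Agent.W907.SG Pool.Agent.W907.SM Pool.Agent.W460.SG
open Pool.Agent.TH652.Above (HSph)
open Pool.Agent.R782.Bal (Rea)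
open Pool.Agent.N496.LT (sd)

section iso

variable {V U : Type} [Fintype V] [Fintype U] [LinearOrder V] [LinearOrder U] (e : V ≃ U)

/-- the signs for the inverse map -/
theorem gg_symm_sq (T : Finset V) : gg e T * gg e T = 1 := gg_sq e T

theorem map_symm_map (T : Finset U) : (T.map e.symm.toEmbedding).map e.toEmbedding = T := by
  ext u
  simp

theorem map_map_symm (T : Finset V) : (T.map e.toEmbedding).map e.symm.toEmbedding = T := by
  ext u
  simp

/-- transport of chains -/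
def Th : (Finset U → ℝ) ≃ₗ[ℝ] (Finset V → ℝ) where
  toFun c T := gg e T * c (T.map e.toEmbedding)
  invFun c T := gg e (T.map e.symm.toEmbedding) * c (T.map e.symm.toEmbedding)
  left_inv c := by
    funext T
    show gg e (T.map e.symm.toEmbedding) * (gg e (T.map e.symm.toEmbedding) *
      c ((T.map e.symm.toEmbedding).map e.toEmbedding)) = c T
    rw [map_symm_map, ← mul_assoc, gg_sq, one_mul]
  right_inv c := by
    funext T
    show gg e T * (gg e ((T.map e.toEmbedding).map e.symm.toEmbedding) *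
      c ((T.map e.toEmbedding).map e.symm.toEmbedding)) = c T
    rw [map_map_symm, ← mul_assoc, gg_sq, one_mul]
  map_add' c d := by
    funext T
    show gg e T * (c _ + d _) = gg e T * c _ + gg e T * d _
    ring
  map_smul' r c := by
    funext T
    show gg e T * (r * c _) = r * (gg e T * c _)
    ring

theorem Th_apply (c : Finset U → ℝ) (T : Finset V) : Th e c T = gg e T * c (T.map e.toEmbedding) := rfl

theorem bd_Th (c : Finset U → ℝ) : bd ℝ (Th e c) = Th e (bd ℝ c) := by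
  funext T
  rw [bd_apply, Th_apply, bd_apply, Finset.mul_sum]
  refine Finset.sum_equiv e (fun v => by simp) fun v hv => ?_
  have hvT : v ∉ T := by simpa using hv
  rw [Th_apply, zsmul_eq_mul, zsmul_eq_mul, ← mul_assoc, sg_map e v T hvT, mul_assoc]
  congr 2
  rw [Finset.map_insert]
  rfl

theorem KK_Th (G : SimpleGraph V) (H : SimpleGraph U) (he : ∀ a b, H.Adj (e a) (e b) ↔ G.Adj a b) (A : Set V)
    (i : ℕ) (c : Finset U → ℝ) :
    Th e c ∈ KK G (fun _ => (- LinearMap.id : ℝ →ₗ[ℝ] ℝ)) A ∅ i ↔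
      c ∈ KK H (fun _ => (- LinearMap.id : ℝ →ₗ[ℝ] ℝ)) (e '' A) ∅ i := by
  have hq : ∀ T : Finset V, (G.IsClique (T : Set V) ∧ (T : Set V) ⊆ A ∧ T.card = i) ↔
      (H.IsClique ((T.map e.toEmbedding : Finset U) : Set U) ∧
        ((T.map e.toEmbedding : Finset U) : Set U) ⊆ e '' A ∧ (T.map e.toEmbedding).card = i) := by
    intro T
    rw [Finset.card_map]
    refine and_congr ?_ (and_congr ?_ Iff.rfl)
    · constructor
      · intro h x hx y hy hxy
        rw [Finset.mem_coe, Finset.mem_map] at hx hy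
        obtain ⟨a, ha, rfl⟩ := hx
        obtain ⟨b, hb, rfl⟩ := hy
        exact (he a b).2 (h ha hb (fun h' => hxy (by rw [h'])))
      · intro h a ha b hb hab
        refine (he a b).1 (h ?_ ?_ (fun h' => hab (e.injective h')))
        · rw [Finset.mem_coe, Finset.mem_map]
          exact ⟨a, ha, rfl⟩
        · rw [Finset.mem_coe, Finset.mem_map]
          exact ⟨b, hb, rfl⟩
    · rw [Finset.coe_map]
      show _ ↔ e '' (T : Set V) ⊆ e '' A
      rw [Set.image_subset_image_iff e.injective]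
  rw [mem_KK, mem_KK]
  constructor
  · rintro ⟨h1, -⟩
    refine ⟨fun T hT => ?_, fun T t _ => ?_⟩
    · have h3 := h1 (T.map e.symm.toEmbedding) (by
        rw [hq, map_symm_map]
        exact hT)
      rw [Th_apply, map_symm_map] at h3
      rcases mul_eq_zero.1 h3 with h4 | h4
      · exact absurd h4 (gg_ne e _)
      · exact h4
    · rfl
  · rintro ⟨h1, -⟩
    refine ⟨fun T hT => ?_, fun T t _ => ?_⟩
    · rw [Th_apply, h1 _ (by rwa [← hq]), mul_zero]
    · rfl

theorem beta_equiv (G : SimpleGraph V) (H : SimpleGraph U) (he : ∀ a b, H.Adj (e a) (e b) ↔ G.Adj a b)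
    (A : Set V) (i : ℕ) :
    beta G (fun _ => (- LinearMap.id : ℝ →ₗ[ℝ] ℝ)) A ∅ i =
      beta H (fun _ => (- LinearMap.id : ℝ →ₗ[ℝ] ℝ)) (e '' A) ∅ i := by
  have hK : ∀ i, KK G (fun _ => (- LinearMap.id : ℝ →ₗ[ℝ] ℝ)) A ∅ i =
      (KK H (fun _ => (- LinearMap.id : ℝ →ₗ[ℝ] ℝ)) (e '' A) ∅ i).map (Th e : (Finset U → ℝ) →ₗ[ℝ] _) := by
    intro i
    ext c
    rw [Submodule.mem_map]
    constructor
    · intro hc
      refine ⟨(Th e).symm c, ?_, (Th e).apply_symm_apply c⟩
      rw [← KK_Th e G H he, LinearEquiv.apply_symm_apply]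
      exact hc
    · rintro ⟨d, hd, rfl⟩
      exact (KK_Th e G H he A i d).2 hd
  have hZ : ZZ G (fun _ => (- LinearMap.id : ℝ →ₗ[ℝ] ℝ)) A ∅ i =
      (ZZ H (fun _ => (- LinearMap.id : ℝ →ₗ[ℝ] ℝ)) (e '' A) ∅ i).map (Th e : (Finset U → ℝ) →ₗ[ℝ] _) := by
    ext c
    rw [Submodule.mem_map]
    constructor
    · rintro ⟨h1, h2⟩
      refine ⟨(Th e).symm c, ⟨?_, ?_⟩, (Th e).apply_symm_apply c⟩
      · rw [SetLike.mem_coe, ← KK_Th e G H he, LinearEquiv.apply_symm_apply]
        exact h1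
      · rw [SetLike.mem_coe, LinearMap.mem_ker]
        have h3 := bd_Th e ((Th e).symm c)
        rw [LinearEquiv.apply_symm_apply] at h3
        have h4 : bd ℝ c = 0 := h2
        rw [h4] at h3
        exact (Th e).map_eq_zero_iff.1 h3.symm
    · rintro ⟨d, ⟨h1, h2⟩, rfl⟩
      refine ⟨(KK_Th e G H he A i d).2 h1, ?_⟩
      rw [SetLike.mem_coe, LinearMap.mem_ker]
      have h4 : bd ℝ d = 0 := h2
      show bd ℝ (Th e d) = 0
      rw [bd_Th, h4, map_zero]
  have hB : BB G (fun _ => (- LinearMap.id : ℝ →ₗ[ℝ] ℝ)) A ∅ i =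
      (BB H (fun _ => (- LinearMap.id : ℝ →ₗ[ℝ] ℝ)) (e '' A) ∅ i).map (Th e : (Finset U → ℝ) →ₗ[ℝ] _) := by
    unfold BB
    rw [hK (i + 1)]
    ext c
    simp only [Submodule.mem_map]
    constructor
    · rintro ⟨_, ⟨d, hd, rfl⟩, rfl⟩
      exact ⟨bd ℝ d, ⟨d, hd, rfl⟩, (bd_Th e d).symm⟩
    · rintro ⟨_, ⟨d, hd, rfl⟩, rfl⟩
      exact ⟨Th e d, ⟨d, hd, rfl⟩, bd_Th e d⟩
  unfold beta
  rw [hZ, hB, LinearEquiv.finrank_map_eq, LinearEquiv.finrank_map_eq]

theorem hsph_iso {k : ℕ} {G : SimpleGraph V} {H : SimpleGraph U} (f : G ≃g H) (h : HSph k G) : HSph k H := by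
  intro S hS i
  have he : ∀ a b, H.Adj (f.toEquiv a) (f.toEquiv b) ↔ G.Adj a b := fun a b => f.map_adj_iff
  have h1 := h (S.map f.toEquiv.symm.toEmbedding) (by
    intro x hx y hy hxy
    rw [Finset.mem_coe, Finset.mem_map] at hx hy
    obtain ⟨a, ha, rfl⟩ := hx
    obtain ⟨b, hb, rfl⟩ := hy
    rw [← he]
    show H.Adj (f.toEquiv (f.toEquiv.symm a)) (f.toEquiv (f.toEquiv.symm b))
    rw [Equiv.apply_symm_apply, Equiv.apply_symm_apply]
    exact hS ha hb (fun h' => hxy (by rw [h']))) i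
  rw [Finset.card_map, beta_equiv f.toEquiv G H he] at h1
  rw [← h1]
  congr 1
  ext u
  rw [Set.mem_image]
  constructor
  · intro hu
    refine ⟨f.toEquiv.symm u, fun a ha => ?_, Equiv.apply_symm_apply _ _⟩
    rw [Finset.mem_map] at ha
    obtain ⟨b, hb, rfl⟩ := ha
    rw [← he]
    show H.Adj (f.toEquiv (f.toEquiv.symm u)) (f.toEquiv (f.toEquiv.symm b))
    rw [Equiv.apply_symm_apply, Equiv.apply_symm_apply]
    exact hu b hb
  · rintro ⟨v, hv, rfl⟩
    intro b hb
    have h3 := hv (f.toEquiv.symm b) (by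
      rw [Finset.mem_map]
      exact ⟨b, hb, rfl⟩)
    rw [← he, Equiv.apply_symm_apply] at h3
    exact h3

end iso

end Pool.Agent.V8H86.LT
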