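import Pool.Agent.V8H86.LT.Sof
import Pool.Agent.N496.CV.ConvB

/-!
# Project LT (helper86), job P4A: the kernel of the Laplacian of the Davis complex consists of harmonic chains
-/

set_option autoImplicit false

open scoped InnerProductSpace

noncomputable section

namespace Pool.Agent.V8H86.LT

open Pool.Agent.Helper993.FK Pool.Agent.Helper993.Delta Pool.Agent.TH630.Tor Pool.Agent.N496.LT

section hilb
variable {H K L : Type} [NormedAddCommGroup H] [InnerProductSpace ℂ H] [CompleteSpace H]
    [NormedAddCommGroup K] [InnerProductSpace ℂ K] [CompleteSpace K]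
    [NormedAddCommGroup L] [InnerProductSpace ℂ L] [CompleteSpace L]

theorem re_one (B : L →L[ℂ] H) (v : H) :
    (⟪v, B (ContinuousLinearMap.adjoint B v)⟫_ℂ).re = ‖ContinuousLinearMap.adjoint B v‖ ^ 2 := by
  rw [← ContinuousLinearMap.adjoint_inner_left]
  exact (norm_sq_eq_re_inner (𝕜 := ℂ) _).symm

theorem re_two (A : H →L[ℂ] K) (v : H) :
    (⟪v, ContinuousLinearMap.adjoint A (A v)⟫_ℂ).re = ‖A v‖ ^ 2 := by
  rw [ContinuousLinearMap.adjoint_inner_right]
  exact (norm_sq_eq_re_inner (𝕜 := ℂ) _).symm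

theorem ker_one (B : L →L[ℂ] H) (v : H) (h : oneWay B v = 0) : ContinuousLinearMap.adjoint B v = 0 := by
  have h1 := re_one B v
  have h2 : B (ContinuousLinearMap.adjoint B v) = 0 := h
  rw [h2, inner_zero_right, Complex.zero_re] at h1
  exact norm_eq_zero.1 (pow_eq_zero_iff two_ne_zero |>.1 h1.symm)

theorem ker_both (A : H →L[ℂ] K) (B : L →L[ℂ] H) (v : H) (h : bothWays A B v = 0) :
    ContinuousLinearMap.adjoint B v = 0 ∧ A v = 0 := by
  have h1 := re_one B v
  have h2 := re_two A v
  have h3 : B (ContinuousLinearMap.adjoint B v) + ContinuousLinearMap.adjoint A (A v) = 0 := h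
  have h4 : (⟪v, B (ContinuousLinearMap.adjoint B v)⟫_ℂ).re + (⟪v, ContinuousLinearMap.adjoint A (A v)⟫_ℂ).re = 0 := by
    rw [← Complex.add_re, ← inner_add_right, h3, inner_zero_right, Complex.zero_re]
  rw [h1, h2] at h4
  have h5 := sq_nonneg ‖ContinuousLinearMap.adjoint B v‖
  have h6 := sq_nonneg ‖A v‖
  constructor
  · exact norm_eq_zero.1 (pow_eq_zero_iff two_ne_zero |>.1 (by linarith))
  · exact norm_eq_zero.1 (pow_eq_zero_iff two_ne_zero |>.1 (by linarith))

end hilb

theorem sum_toQ {Γ : Type} [Group Γ] (a : MonoidAlgebra ℤ Γ) (f : Γ → ℂ) :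
    ∑ γ ∈ (toQ a).coeff.support, (((toQ a).coeff γ : ℚ) : ℂ) * f γ = a.coeff.sum fun γ m => m • f γ := by
  have h : (toQ a).coeff.support = a.coeff.support := by
    ext γ
    simp [toQ_coeff]
  rw [h, Finsupp.sum]
  refine Finset.sum_congr rfl fun γ _ => ?_
  rw [toQ_coeff, zsmul_eq_mul]
  push_cast
  rfl

theorem sum_inv {Γ : Type} [Group Γ] (a : MonoidAlgebra ℤ Γ) (f : Γ → ℂ) :
    ((MonoidAlgebra.mapDomain (fun g : Γ => g⁻¹) a).coeff.sum fun γ m => m • f γ) =
      a.coeff.sum fun γ m => m • f γ⁻¹ := by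
  have h : (MonoidAlgebra.mapDomain (fun g : Γ => g⁻¹) a).coeff = Finsupp.mapDomain (fun g : Γ => g⁻¹) a.coeff := by
    simp [MonoidAlgebra.mapDomain]
  rw [h]
  exact Finsupp.sum_mapDomain_index (fun _ => zero_smul _ _) (fun _ _ _ => add_smul _ _ _)

section gen
variable {Γ : Type} [Group Γ] (C : GCx Γ)

/-- the number of a cell -/
def num (n : ℕ) (i : C.ι) (h : C.deg i = n) : Fin (C.toFree.rank n) :=
  Fintype.equivFin {i : C.ι // C.deg i = n} ⟨i, h⟩

/-- extension of a chain by zero -/
def ex (n : ℕ) (v : L2Pow Γ (C.toFree.rank n)) (i : C.ι) (g : Γ) : ℂ :=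
  if h : C.deg i = n then coord v (num C n i h) g else 0

/-- right multiplication by the boundary matrix -/
def mD (v : C.ι → Γ → ℂ) (j : C.ι) (g : Γ) : ℂ := ∑ i, (C.D i j).coeff.sum fun γ a => a • v i (g * γ⁻¹)

/-- right multiplication by the adjoint of the boundary matrix -/
def mDs (v : C.ι → Γ → ℂ) (i : C.ι) (g : Γ) : ℂ := ∑ j, (C.D i j).coeff.sum fun γ a => a • v j (g * γ)

theorem ex_symm (n : ℕ) (v : L2Pow Γ (C.toFree.rank n)) (a : {i : C.ι // C.deg i = n}) (g : Γ) :
    ex C n v a.1 g = coord v (Fintype.equivFin {i : C.ι // C.deg i = n} a) g := by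
  unfold ex num
  rw [dif_pos a.2]

theorem ex_l2d (n : ℕ) (v : L2Pow Γ (C.toFree.rank (n + 1))) :
    ex C n (C.toFree.l2d n v) = mD C (ex C (n + 1) v) := by
  funext j g
  by_cases hj : C.deg j = n
  · have h1 : ex C n (C.toFree.l2d n v) j g =
        coord (C.toFree.l2d n v) (Fintype.equivFin {i : C.ι // C.deg i = n} ⟨j, hj⟩) g :=
      ex_symm C n _ ⟨j, hj⟩ g
    rw [h1]
    unfold FreeCx.l2d
    rw [rMul_apply]
    have h2 : ∀ i : Fin (C.toFree.rank (n + 1)), (∑ γ ∈ (((C.toFree.d n).map
        (MonoidAlgebra.mapRingHom Γ (Int.castRingHom ℚ))) i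
          (Fintype.equivFin {i : C.ι // C.deg i = n} ⟨j, hj⟩)).coeff.support,
        (((((C.toFree.d n).map (MonoidAlgebra.mapRingHom Γ (Int.castRingHom ℚ))) i
          (Fintype.equivFin {i : C.ι // C.deg i = n} ⟨j, hj⟩)).coeff γ : ℚ) : ℂ) * coord v i (g * γ⁻¹)) =
        (C.D ((Fintype.equivFin {i : C.ι // C.deg i = n + 1}).symm i).1 j).coeff.sum
          fun γ a => a • coord v i (g * γ⁻¹) := by
      intro i
      rw [← sum_toQ]
      have h3 : ((C.toFree.d n).map (MonoidAlgebra.mapRingHom Γ (Int.castRingHom ℚ))) i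
          (Fintype.equivFin {i : C.ι // C.deg i = n} ⟨j, hj⟩) =
          toQ (C.D ((Fintype.equivFin {i : C.ι // C.deg i = n + 1}).symm i).1 j) := by
        show toQ (C.D ((Fintype.equivFin {i : C.ι // C.deg i = n + 1}).symm i).1
          ((Fintype.equivFin {i : C.ι // C.deg i = n}).symm
            (Fintype.equivFin {i : C.ι // C.deg i = n} ⟨j, hj⟩)).1) = _
        rw [Equiv.symm_apply_apply]
      rw [h3]
    rw [Finset.sum_congr rfl fun i _ => h2 i]
    unfold mD
    rw [← sum_deg C.deg (n + 1) (fun i => (C.D i j).coeff.sum fun γ a => a • ex C (n + 1) v i (g * γ⁻¹))]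
    · refine ((Fintype.equivFin {i : C.ι // C.deg i = n + 1}).sum_comp _).symm.trans ?_
      refine Finset.sum_congr rfl fun a _ => ?_
      rw [Equiv.symm_apply_apply]
      simp only [ex_symm]
    · intro k hk
      have : ∀ g, ex C (n + 1) v k g = 0 := fun g => by
        unfold ex
        rw [dif_neg hk]
      simp only [this, smul_zero]
      exact Finset.sum_const_zero
  · have h1 : ex C n (C.toFree.l2d n v) j g = 0 := by
      unfold ex
      rw [dif_neg hj]
    rw [h1]
    unfold mD
    refine (Finset.sum_eq_zero fun i _ => ?_).symm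
    by_cases h0 : C.D i j = 0
    · rw [h0]
      exact Finset.sum_empty
    · have h2 : C.deg i ≠ n + 1 := by
        have := C.D_deg i j h0
        omega
      have : ∀ g, ex C (n + 1) v i g = 0 := fun g => by
        unfold ex
        rw [dif_neg h2]
      simp only [this, smul_zero]
      exact Finset.sum_const_zero

theorem ex_adj (n : ℕ) (v : L2Pow Γ (C.toFree.rank n)) :
    ex C (n + 1) (ContinuousLinearMap.adjoint (C.toFree.l2d n) v) = mDs C (ex C n v) := by
  funext j g
  by_cases hj : C.deg j = n + 1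
  · have h1 : ex C (n + 1) (ContinuousLinearMap.adjoint (C.toFree.l2d n) v) j g =
        coord (ContinuousLinearMap.adjoint (C.toFree.l2d n) v)
          (Fintype.equivFin {i : C.ι // C.deg i = n + 1} ⟨j, hj⟩) g :=
      ex_symm C (n + 1) _ ⟨j, hj⟩ g
    rw [h1]
    have h0 : C.toFree.l2d n = rMul ((C.toFree.d n).map toQ) := rfl
    rw [h0, adjoint_rMul, ← toQ_adjZ, rMul_apply]
    have h2 : ∀ i : Fin (C.toFree.rank n), (∑ γ ∈ (((adjZ (C.toFree.d n)).map toQ) i
          (Fintype.equivFin {i : C.ι // C.deg i = n + 1} ⟨j, hj⟩)).coeff.support,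
        (((((adjZ (C.toFree.d n)).map toQ) i
          (Fintype.equivFin {i : C.ι // C.deg i = n + 1} ⟨j, hj⟩)).coeff γ : ℚ) : ℂ) * coord v i (g * γ⁻¹)) =
        (C.D j ((Fintype.equivFin {i : C.ι // C.deg i = n}).symm i).1).coeff.sum
          fun γ a => a • coord v i (g * γ) := by
      intro i
      have h3 : ((adjZ (C.toFree.d n)).map toQ) i (Fintype.equivFin {i : C.ι // C.deg i = n + 1} ⟨j, hj⟩) =
          toQ (MonoidAlgebra.mapDomain (fun g : Γ => g⁻¹)
            (C.D j ((Fintype.equivFin {i : C.ι // C.deg i = n}).symm i).1)) := by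
        show toQ (MonoidAlgebra.mapDomain (fun g : Γ => g⁻¹)
          (C.D ((Fintype.equivFin {i : C.ι // C.deg i = n + 1}).symm
            (Fintype.equivFin {i : C.ι // C.deg i = n + 1} ⟨j, hj⟩)).1
            ((Fintype.equivFin {i : C.ι // C.deg i = n}).symm i).1)) = _
        rw [Equiv.symm_apply_apply]
      rw [h3, sum_toQ, sum_inv]
      simp only [inv_inv]
    rw [Finset.sum_congr rfl fun i _ => h2 i]
    unfold mDs
    rw [← sum_deg C.deg n (fun i => (C.D j i).coeff.sum fun γ a => a • ex C n v i (g * γ))]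
    · refine ((Fintype.equivFin {i : C.ι // C.deg i = n}).sum_comp _).symm.trans ?_
      refine Finset.sum_congr rfl fun a _ => ?_
      rw [Equiv.symm_apply_apply]
      simp only [ex_symm]
    · intro k hk
      have : ∀ g, ex C n v k g = 0 := fun g => by
        unfold ex
        rw [dif_neg hk]
      simp only [this, smul_zero]
      exact Finset.sum_const_zero
  · have h1 : ex C (n + 1) (ContinuousLinearMap.adjoint (C.toFree.l2d n) v) j g = 0 := by
      unfold ex
      rw [dif_neg hj]
    rw [h1]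
    unfold mDs
    refine (Finset.sum_eq_zero fun i _ => ?_).symm
    by_cases h0 : C.D j i = 0
    · rw [h0]
      exact Finset.sum_empty
    · have h2 : C.deg i ≠ n := by
        have := C.D_deg j i h0
        omega
      have : ∀ g, ex C n v i g = 0 := fun g => by
        unfold ex
        rw [dif_neg h2]
      simp only [this, smul_zero]
      exact Finset.sum_const_zero

theorem ex_zero (n : ℕ) : ex C n 0 = 0 := by
  funext i g
  unfold ex
  split_ifs
  · rfl
  · rfl

theorem ex_inj (n : ℕ) (v : L2Pow Γ (C.toFree.rank n)) (h : ex C n v = 0) : v = 0 := by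
  apply coord_ext
  intro j g
  have h1 := ex_symm C n v ((Fintype.equivFin {i : C.ι // C.deg i = n}).symm j) g
  rw [Equiv.apply_symm_apply, h] at h1
  exact h1.symm

/-- the kernel of the Laplacian: cycles and cocycles -/
theorem ker_lap (n : ℕ) (v : L2Pow Γ (C.toFree.rank n)) (h : C.toFree.laplacian n v = 0) :
    mDs C (ex C n v) = 0 ∧ mD C (ex C n v) = 0 := by
  cases n with
  | zero =>
    have h1 := ker_one _ _ h
    constructor
    · rw [← ex_adj, h1, ex_zero]
    · funext j g
      unfold mD
      refine Finset.sum_eq_zero fun i _ => ?_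
      by_cases h0 : C.D i j = 0
      · rw [h0]
        exact Finset.sum_empty
      · have h2 : C.deg i ≠ 0 := by
          have := C.D_deg i j h0
          omega
        have : ∀ g, ex C 0 v i g = 0 := fun g => by
          unfold ex
          rw [dif_neg h2]
        simp only [this, smul_zero]
        exact Finset.sum_const_zero
  | succ n =>
    obtain ⟨h1, h2⟩ := ker_both _ _ _ h
    constructor
    · rw [← ex_adj, h1, ex_zero]
    · rw [← ex_l2d, h2, ex_zero]

/-- the entries are square summable -/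
theorem ex_summable (n : ℕ) (v : L2Pow Γ (C.toFree.rank n)) (i : C.ι) :
    Summable fun g => ‖ex C n v i g‖ ^ 2 := by
  unfold ex
  by_cases h : C.deg i = n
  · simp only [dif_pos h]
    have h1 : Function.Injective (fun g : Γ => ((num C n i h, g) : Fin (C.toFree.rank n) × Γ)) := by
      intro a b hab
      simpa using hab
    have h2 := (coord_summable v).comp_injective h1
    refine h2.congr fun g => ?_
    simp
  · simp only [dif_neg h]
    simp

end gen

end Pool.Agent.V8H86.LT
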