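import Pool.Agent.V8H86.LT.Iso

/-!
# Project LT (helper86), job C2INV: realizations, and the combined notion `Good`
-/

set_option autoImplicit false

noncomputable section

namespace Pool.Agent.V8H86.LT

open Pool.Agent.TH652.Above (HSph)
open Pool.Agent.R782.Bal (Rea)
open Pool.Agent.N496.LT (sd)

/-- the inverse of the subdivision of the realization -/
def psi {n : ℕ} (s t : Fin n) (x : Fin n → ℝ) : Fin (n + 1) → ℝ :=
  Fin.lastCases (2 * min (x s) (x t)) (fun v => x v - if v = s ∨ v = t then min (x s) (x t) else 0)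

variable {n : ℕ}

theorem psi_last (s t : Fin n) (x : Fin n → ℝ) : psi s t x (Fin.last n) = 2 * min (x s) (x t) := by
  unfold psi
  exact Fin.lastCases_last

theorem psi_cast (s t : Fin n) (x : Fin n → ℝ) (v : Fin n) :
    psi s t x (Fin.castSucc v) = x v - if v = s ∨ v = t then min (x s) (x t) else 0 := by
  unfold psi
  exact Fin.lastCases_castSucc _

theorem psi_cont (s t : Fin n) : Continuous (psi s t) := by
  refine continuous_pi fun v => ?_
  refine Fin.lastCases ?_ (fun v => ?_) v
  · simp only [psi_last]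
    fun_prop
  · simp only [psi_cast]
    by_cases h : v = s ∨ v = t
    · simp only [if_pos h]
      fun_prop
    · simp only [if_neg h]
      fun_prop

theorem phi_psi (s t : Fin n) (x : Fin n → ℝ) : Pool.Agent.N496.LT.E2p.phi s t (psi s t x) = x := by
  funext v
  unfold Pool.Agent.N496.LT.E2p.phi
  rw [psi_last, psi_cast]
  split_ifs <;> ring

theorem psi_mem {G : SimpleGraph (Fin n)} {s t : Fin n} (hst : G.Adj s t) {x : Fin n → ℝ} (hx : x ∈ Rea G) :
    psi s t x ∈ Rea (sd G s t) := by
  obtain ⟨h0, h1, h2⟩ := hx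
  have hne : ∀ v, psi s t x (Fin.castSucc v) ≠ 0 → x v ≠ 0 := by
    intro v hv hv0
    apply hv
    rw [psi_cast]
    by_cases h : v = s ∨ v = t
    · rw [if_pos h, hv0]
      rcases h with h | h
      · rw [← h, hv0, min_eq_left (h0 t), sub_zero]
      · rw [← h, hv0, min_eq_right (h0 s), sub_zero]
    · rw [if_neg h, hv0, sub_zero]
  refine ⟨fun v => ?_, ?_, ?_⟩
  · refine Fin.lastCases ?_ (fun v => ?_) v
    · rw [psi_last]
      have := h0 s
      have := h0 t
      positivity
    · rw [psi_cast]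
      by_cases h : v = s ∨ v = t
      · rw [if_pos h]
        rcases h with h | h
        · rw [h]
          have := min_le_left (x s) (x t)
          linarith
        · rw [h]
          have := min_le_right (x s) (x t)
          linarith
      · rw [if_neg h, sub_zero]
        exact h0 v
  · have h3 := Pool.Agent.N496.LT.E2p.phi_sum hst.ne (psi s t x)
    rw [phi_psi] at h3
    rw [finsum_eq_sum_of_fintype] at h1 ⊢
    rw [← h3, h1]
  · intro u hu v hv huv
    have hu' : psi s t x u ≠ 0 := hu
    have hv' : psi s t x v ≠ 0 := hv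
    clear hu hv
    revert hu' hv' huv
    refine Fin.lastCases ?_ (fun a => ?_) u
    · refine Fin.lastCases ?_ (fun b => ?_) v
      · intro h _ _
        exact absurd rfl h
      · intro _ hl hb
        rw [psi_last] at hl
        have hm : min (x s) (x t) ≠ 0 := fun h => hl (by rw [h, mul_zero])
        have hs : x s ≠ 0 := fun h => hm (by rw [h, min_eq_left (h0 t)])
        have ht : x t ≠ 0 := fun h => hm (by rw [h, min_eq_right (h0 s)])
        have hxb := hne b hb
        refine Or.inr (Or.inl ⟨rfl, b, rfl, ?_⟩)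
        by_cases h1 : b = s
        · exact Or.inl h1
        · by_cases h3 : b = t
          · exact Or.inr (Or.inl h3)
          · exact Or.inr (Or.inr ⟨h2 hs hxb (Ne.symm h1), h2 ht hxb (Ne.symm h3)⟩)
    · refine Fin.lastCases ?_ (fun b => ?_) v
      · intro _ ha hl
        rw [psi_last] at hl
        have hm : min (x s) (x t) ≠ 0 := fun h => hl (by rw [h, mul_zero])
        have hs : x s ≠ 0 := fun h => hm (by rw [h, min_eq_left (h0 t)])
        have ht : x t ≠ 0 := fun h => hm (by rw [h, min_eq_right (h0 s)])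
        have hxb := hne a ha
        refine Or.inr (Or.inr ⟨rfl, a, rfl, ?_⟩)
        by_cases h1 : a = s
        · exact Or.inl h1
        · by_cases h3 : a = t
          · exact Or.inr (Or.inl h3)
          · exact Or.inr (Or.inr ⟨h2 hs hxb (Ne.symm h1), h2 ht hxb (Ne.symm h3)⟩)
      · intro hab ha hb
        have hab' : a ≠ b := fun h => hab (by rw [h])
        refine Or.inl ⟨a, b, rfl, rfl, h2 (hne a ha) (hne b hb) hab', ?_⟩
        intro h
        rw [psi_cast] at ha hb
        rw [Sym2.eq_iff] at h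
        rcases h with ⟨h3, h4⟩ | ⟨h3, h4⟩
        · rw [if_pos (Or.inl h3), h3] at ha
          rw [if_pos (Or.inr h4), h4] at hb
          rcases le_total (x s) (x t) with h5 | h5
          · rw [min_eq_left h5, sub_self] at ha
            exact ha rfl
          · rw [min_eq_right h5, sub_self] at hb
            exact hb rfl
        · rw [if_pos (Or.inr h3), h3] at ha
          rw [if_pos (Or.inl h4), h4] at hb
          rcases le_total (x s) (x t) with h5 | h5
          · rw [min_eq_left h5, sub_self] at hb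
            exact hb rfl
          · rw [min_eq_right h5, sub_self] at ha
            exact ha rfl

/-- **the inverse of E2** -/
theorem e2inv {G : SimpleGraph (Fin n)} {s t : Fin n} {E : Type} [TopologicalSpace E] (f : (Fin (n + 1) → ℝ) → E)
    (hst : G.Adj s t) (hc : ContinuousOn f (Rea (sd G s t))) (hi : Set.InjOn f (Rea (sd G s t))) :
    ∃ g : (Fin n → ℝ) → E, ContinuousOn g (Rea G) ∧ Set.InjOn g (Rea G) ∧
      ∀ x ∈ Rea G, ∃ y ∈ Rea (sd G s t), g x = f y := by
  refine ⟨f ∘ psi s t, hc.comp (psi_cont s t).continuousOn fun x hx => psi_mem hst hx, ?_, fun x hx =>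
    ⟨_, psi_mem hst hx, rfl⟩⟩
  intro x hx y hy hxy
  have h := hi (psi_mem hst hx) (psi_mem hst hy) hxy
  rw [← phi_psi s t x, h, phi_psi]

theorem rea_iso {V U : Type} {G : SimpleGraph V} {H : SimpleGraph U} (e : G ≃g H) {x : U → ℝ} (hx : x ∈ Rea H) :
    (fun v => x (e v)) ∈ Rea G := by
  obtain ⟨h0, h1, h2⟩ := hx
  refine ⟨fun v => h0 _, ?_, ?_⟩
  · rw [← h1]
    exact finsum_comp_equiv e.toEquiv
  · intro a ha b hb hab
    exact e.map_adj_iff.1 (h2 ha hb (fun h => hab (e.injective h)))

/-- The flag complex of `G` is a real homology sphere of dimension `k - 1` all of whose links are real homology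
spheres, and it is embedded in the unit sphere of the euclidean space of dimension `k`. -/
def Good (k : ℕ) {V : Type} [Fintype V] [LinearOrder V] (G : SimpleGraph V) : Prop :=
  HSph k G ∧ ∃ f : (V → ℝ) → EuclideanSpace ℝ (Fin k), ContinuousOn f (Rea G) ∧ (∀ x ∈ Rea G, ‖f x‖ = 1) ∧
    Set.InjOn f (Rea G)

theorem good_iso {k : ℕ} {V U : Type} [Fintype V] [LinearOrder V] [Fintype U] [LinearOrder U] {G : SimpleGraph V}
    {H : SimpleGraph U} (e : G ≃g H) (h : Good k G) : Good k H := by
  obtain ⟨h1, f, hc, hn, hi⟩ := h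
  refine ⟨hsph_iso e h1, fun x => f (fun v => x (e v)), ?_, fun x hx => hn _ (rea_iso e hx), ?_⟩
  · exact hc.comp (Continuous.continuousOn (by fun_prop)) fun x hx => rea_iso e hx
  · intro x hx y hy hxy
    have h2 := hi (rea_iso e hx) (rea_iso e hy) hxy
    funext u
    have h3 := congrFun h2 (e.symm u)
    simpa using h3

theorem good_sd {k : ℕ} {G : SimpleGraph (Fin n)} {s t : Fin n} (hst : G.Adj s t) (h : Good k G) :
    Good k (sd G s t) := by
  obtain ⟨h1, f, hc, hn, hi⟩ := h
  obtain ⟨g, g1, g2, g3⟩ := Pool.Agent.N496.LT.e2 n G s t _ f hst hc hi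
  refine ⟨Pool.Agent.N496.LT.e1 k n G s t hst h1, g, g1, fun x hx => ?_, g2⟩
  obtain ⟨y, hy, hxy⟩ := g3 x hx
  rw [hxy]
  exact hn y hy

/-- the inverse of E1 (job C1INV) -/
def E1inv : Prop := ∀ (k n : ℕ) (G : SimpleGraph (Fin n)) (s t : Fin n), G.Adj s t → HSph k (sd G s t) → HSph k G

theorem good_unsd (hE : E1inv) {k : ℕ} {G : SimpleGraph (Fin n)} {s t : Fin n} (hst : G.Adj s t)
    (h : Good k (sd G s t)) : Good k G := by
  obtain ⟨h1, f, hc, hn, hi⟩ := h
  obtain ⟨g, g1, g2, g3⟩ := e2inv f hst hc hi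
  refine ⟨hE k n G s t hst h1, g, g1, fun x hx => ?_, g2⟩
  obtain ⟨y, hy, hxy⟩ := g3 x hx
  rw [hxy]
  exact hn y hy

/-- `H` is the edge subdivision of `G` at the edge `s t`, with new vertex `m`; `j` is the inclusion of the old
vertices (arbitrary vertex sets). -/
structure IsSd {V U : Type} (G : SimpleGraph V) (H : SimpleGraph U) (s t : V) (m : U) (j : V → U) : Prop where
  adj : G.Adj s t
  inj : Function.Injective j
  ne : ∀ v, j v ≠ m
  surj : ∀ u, u ≠ m → ∃ v, j v = u
  cc : ∀ a b, H.Adj (j a) (j b) ↔ (G.Adj a b ∧ s(a, b) ≠ s(s, t))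
  mc : ∀ b, H.Adj m (j b) ↔ (b = s ∨ b = t ∨ (G.Adj s b ∧ G.Adj t b))

theorem sd_cc' (G : SimpleGraph (Fin n)) (s t a b : Fin n) :
    (sd G s t).Adj (Fin.castSucc a) (Fin.castSucc b) ↔ (G.Adj a b ∧ s(a, b) ≠ s(s, t)) := by
  constructor
  · exact Pool.Agent.N496.LT.E2p.adj_cast
  · rintro ⟨h1, h2⟩
    exact Or.inl ⟨a, b, rfl, rfl, h1, h2⟩

theorem sd_lc' (G : SimpleGraph (Fin n)) (s t b : Fin n) :
    (sd G s t).Adj (Fin.last n) (Fin.castSucc b) ↔ (b = s ∨ b = t ∨ (G.Adj s b ∧ G.Adj t b)) := by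
  constructor
  · exact Pool.Agent.N496.LT.E2p.adj_last
  · intro h
    exact Or.inr (Or.inl ⟨rfl, b, rfl, h⟩)

theorem IsSd.iso {V U : Type} [Fintype V] {G : SimpleGraph V} {H : SimpleGraph U} {s t : V} {m : U} {j : V → U}
    (h : IsSd G H s t m j) : ∃ (N : ℕ) (G' : SimpleGraph (Fin N)) (s' t' : Fin N), G'.Adj s' t' ∧
      Nonempty (G ≃g G') ∧ Nonempty (sd G' s' t' ≃g H) := by
  classical
  obtain ⟨e⟩ : Nonempty (V ≃ Fin (Fintype.card V)) := ⟨Fintype.equivFin V⟩
  refine ⟨Fintype.card V, G.comap e.symm, e s, e t, ?_, ⟨⟨e, ?_⟩⟩, ?_⟩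
  · show G.Adj (e.symm (e s)) (e.symm (e t))
    rw [Equiv.symm_apply_apply, Equiv.symm_apply_apply]
    exact h.adj
  · intro a b
    show G.Adj (e.symm (e a)) (e.symm (e b)) ↔ G.Adj a b
    rw [Equiv.symm_apply_apply, Equiv.symm_apply_apply]
  · obtain ⟨F, hF⟩ : ∃ F : Fin (Fintype.card V + 1) → U, F = Fin.lastCases m (fun i => j (e.symm i)) := ⟨_, rfl⟩
    have hl : F (Fin.last _) = m := by rw [hF]; exact Fin.lastCases_last
    have hc : ∀ i, F (Fin.castSucc i) = j (e.symm i) := fun i => by rw [hF]; exact Fin.lastCases_castSucc i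
    have hb : Function.Bijective F := by
      constructor
      · intro a b
        refine Fin.lastCases ?_ (fun a => ?_) a
        · refine Fin.lastCases ?_ (fun b => ?_) b
          · intro _; rfl
          · rw [hl, hc]
            intro h1
            exact absurd h1.symm (h.ne _)
        · refine Fin.lastCases ?_ (fun b => ?_) b
          · rw [hl, hc]
            intro h1
            exact absurd h1 (h.ne _)
          · rw [hc, hc]
            intro h1
            rw [e.symm.injective (h.inj h1)]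
      · intro u
        by_cases hu : u = m
        · exact ⟨Fin.last _, by rw [hl, hu]⟩
        · obtain ⟨v, hv⟩ := h.surj u hu
          exact ⟨Fin.castSucc (e v), by rw [hc, Equiv.symm_apply_apply, hv]⟩
    have hcc : ∀ a b, H.Adj (F (Fin.castSucc a)) (F (Fin.castSucc b)) ↔
        (sd (G.comap e.symm) (e s) (e t)).Adj (Fin.castSucc a) (Fin.castSucc b) := by
      intro a b
      rw [hc, hc, h.cc, sd_cc']
      refine and_congr Iff.rfl (not_congr ?_)
      rw [Sym2.eq_iff, Sym2.eq_iff, Equiv.symm_apply_eq, Equiv.symm_apply_eq, Equiv.symm_apply_eq,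
        Equiv.symm_apply_eq]
    have hmc : ∀ b, H.Adj (F (Fin.last _)) (F (Fin.castSucc b)) ↔
        (sd (G.comap e.symm) (e s) (e t)).Adj (Fin.last _) (Fin.castSucc b) := by
      intro b
      rw [hl, hc, h.mc, sd_lc', Equiv.symm_apply_eq, Equiv.symm_apply_eq]
      show _ ↔ b = e s ∨ b = e t ∨ (G.Adj (e.symm (e s)) (e.symm b) ∧ G.Adj (e.symm (e t)) (e.symm b))
      rw [Equiv.symm_apply_apply, Equiv.symm_apply_apply]
    refine ⟨⟨Equiv.ofBijective F hb, ?_⟩⟩
    intro a b
    show H.Adj (F a) (F b) ↔ _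
    refine Fin.lastCases ?_ (fun a => ?_) a
    · refine Fin.lastCases ?_ (fun b => ?_) b
      · exact ⟨fun h1 => absurd h1 (H.loopless.irrefl _), fun h1 => absurd h1 (SimpleGraph.irrefl _)⟩
      · exact hmc b
    · refine Fin.lastCases ?_ (fun b => ?_) b
      · rw [SimpleGraph.adj_comm, hmc a, SimpleGraph.adj_comm]
      · exact hcc a b

/-- edge subdivisions, arbitrary vertex sets -/
theorem good_of_isSd {k : ℕ} {V U : Type} [Fintype V] [LinearOrder V] [Fintype U] [LinearOrder U]
    {G : SimpleGraph V} {H : SimpleGraph U} {s t : V} {m : U} {j : V → U} (h : IsSd G H s t m j) (hG : Good k G) :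
    Good k H := by
  obtain ⟨N, G', s', t', h1, ⟨e⟩, ⟨e'⟩⟩ := h.iso
  exact good_iso e' (good_sd h1 (good_iso e hG))

/-- inverses of edge subdivisions, arbitrary vertex sets -/
theorem good_of_isSd_inv (hE : E1inv) {k : ℕ} {V U : Type} [Fintype V] [LinearOrder V] [Fintype U] [LinearOrder U]
    {G : SimpleGraph V} {H : SimpleGraph U} {s t : V} {m : U} {j : V → U} (h : IsSd G H s t m j) (hH : Good k H) :
    Good k G := by
  obtain ⟨N, G', s', t', h1, ⟨e⟩, ⟨e'⟩⟩ := h.iso
  exact good_iso e.symm (good_unsd hE h1 (good_iso e'.symm hH))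

end Pool.Agent.V8H86.LT
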