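import Pool.Agent.N496.LT.Stm
import Pool.Agent.Helper653_Tor.Inj

/-!
# Project LT (helper86): residually finite groups are sofic; positivity of the Fuglede-Kadison determinants
-/

set_option autoImplicit false

noncomputable section

namespace Pool.Agent.V8H86.LT

open Pool.Agent.Helper993.FK Pool.Agent.Helper993.Delta Pool.Agent.TH630.Tor Pool.Agent.Helper653_Tor
open Pool.Agent.N496.LT (ResFin)

/-- residually finite groups are sofic -/
theorem sofic_of_resFin {G : Type} [Group G] (h : ResFin G) : IsSofic G := by
  classical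
  obtain ⟨N, hN, hfin, hanti, hinf⟩ := h
  intro A ε hε
  -- one level where all the elements of `A` survive
  have h1 : ∀ a : G, a ≠ 1 → ∃ i, a ∉ N i := by
    intro a ha
    by_contra hcon
    push Not at hcon
    apply ha
    have : a ∈ ⨅ i, N i := Subgroup.mem_iInf.2 hcon
    rw [hinf] at this
    exact Subgroup.mem_bot.1 this
  have h2 : ∃ i, ∀ a ∈ A, a ≠ 1 → a ∉ N i := by
    clear hε
    induction A using Finset.induction_on with
    | empty => exact ⟨0, by simp⟩
    | insert b A hb ih =>
      obtain ⟨i, hi⟩ := ih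
      by_cases hb1 : b = 1
      · refine ⟨i, fun a ha ha1 => ?_⟩
        rcases Finset.mem_insert.1 ha with rfl | ha
        · exact absurd hb1 ha1
        · exact hi a ha ha1
      · obtain ⟨j, hj⟩ := h1 b hb1
        refine ⟨max i j, fun a ha ha1 hmem => ?_⟩
        rcases Finset.mem_insert.1 ha with rfl | ha
        · exact hj (hanti (le_max_right i j) hmem)
        · exact hi a ha ha1 (hanti (le_max_left i j) hmem)
  obtain ⟨i, hi⟩ := h2
  have := hN i
  have hf := hfin i
  have hfin' : Finite (G ⧸ N i) := Subgroup.finite_quotient_of_finiteIndex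
  let n := Nat.card (G ⧸ N i)
  have hn : 1 ≤ n := Nat.card_pos
  let e : (G ⧸ N i) ≃ Fin n := Finite.equivFin _
  let φ : G → Equiv.Perm (Fin n) := fun g =>
    (e.symm.trans (Equiv.mulLeft (g : G ⧸ N i))).trans e
  have hmul : ∀ a b, φ (a * b) = φ a * φ b := by
    intro a b
    ext x
    simp only [φ, Equiv.trans_apply, Equiv.coe_mulLeft, Equiv.Perm.coe_mul, Function.comp_apply,
      Equiv.symm_apply_apply]
    rw [QuotientGroup.mk_mul, mul_assoc]
  refine ⟨n, hn, φ, ?_, fun a _ b _ _ => ?_, fun a ha ha1 => ?_⟩
  · ext x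
    simp only [φ, Equiv.trans_apply, Equiv.coe_mulLeft, Equiv.Perm.coe_one, id_eq]
    rw [QuotientGroup.mk_one, one_mul, Equiv.apply_symm_apply]
  · rw [hmul, hamm_self]
    exact hε
  · have h3 : hamm (φ a) 1 = 1 := by
      unfold hamm
      have h4 : (Finset.univ.filter fun x : Fin n => φ a x ≠ (1 : Equiv.Perm (Fin n)) x)
          = Finset.univ := by
        rw [Finset.filter_eq_self]
        intro x _ hx
        have h5 : e ((a : G ⧸ N i) * e.symm x) = x := hx
        have h6 : (a : G ⧸ N i) * e.symm x = e.symm x := by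
          rw [Equiv.eq_symm_apply]
          exact h5
        have h7 : (a : G ⧸ N i) = 1 := by
          exact mul_eq_right.1 h6
        rw [QuotientGroup.eq_one_iff] at h7
        exact hi a ha ha1 h7
      rw [h4, Finset.card_univ, Fintype.card_fin, div_self]
      exact_mod_cast (by omega : n ≠ 0)
    rw [h3]
    linarith

/-- over a sofic group a complex with injective Laplacians is det-acyclic -/
theorem acyc_of_inj {G : Type} [Group G] (hG : IsSofic G) (C : FreeCx G)
    (h : ∀ n v, C.laplacian n v = 0 → v = 0) : C.DetL2Acyclic := by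
  intro n
  have h0 : ∀ v, rMul ((Pool.Agent.Helper653_Tor.lapM C n).map toQ) v = 0 → v = 0 := by
    intro v hv
    rw [← Pool.Agent.Helper653_Tor.laplacian_eq] at hv
    exact h n v hv
  have h1 : 1 ≤ Dt (Pool.Agent.Helper653_Tor.lapM C n) := sofic_integral hG _ (noAt_of_inj' _ h0)
  constructor
  · unfold FreeCx.l2betti
    exact dimKer_of_inj' _ (h n)
  · rw [Pool.Agent.Helper653_Tor.laplacian_eq]
    exact fkDet_pos_of_Dt _ (lt_of_lt_of_le one_pos h1)

/-- over a residually finite group a complex with injective Laplacians is det-acyclic -/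
theorem acyc_of_inj' {G : Type} [Group G] (hG : ResFin G) (C : FreeCx G)
    (h : ∀ n v, C.laplacian n v = 0 → v = 0) : C.DetL2Acyclic :=
  acyc_of_inj (sofic_of_resFin hG) C h

/-- conversely the Laplacians of an acyclic complex are injective -/
theorem inj_of_acyc {G : Type} [Group G] (C : FreeCx G) (h : C.DetL2Acyclic) :
    ∀ n v, C.laplacian n v = 0 → v = 0 := by
  intro n v hv
  have h1 := (h n).1
  unfold FreeCx.l2betti at h1
  rw [Pool.Agent.Helper653_Tor.laplacian_eq] at h1 hv
  exact inj_of_dimKer _ h1 v hv

end Pool.Agent.V8H86.LT
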